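import Mathlib
import Pool.Agent.TH773.PSet.Defs
import Pool.Agent.TH773.PSet.Prod
import Pool.Agent.TH773.PSet.Ground

/-!
# Random forcing covers `ω*` by nowhere dense P-sets

If `I` has more than continuum many elements, then the random forcing `𝔹(I)` forces that `ω*` can
be covered by nowhere dense P-sets. In particular, if CH holds in the ground model, then `𝔹(ω_l)`
forces this for all `l` with `2 ≤ l < ω`.

The definitions are in `Pool.Agent.TH773.PSet.Defs`. The sentence `Covered` of the forcing
language says that every nonprincipal ultrafilter `U` on `ω` includes a filter `F` which
corresponds to a nowhere dense P-set. The second part of the theorem justifies this choice: for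
the trivial forcing, the sentence `Covered` is equivalent to the topological statement that `ω*`
is the union of a family of nowhere dense P-sets.

Proof. Let `U` be an ultrafilter of the extension. For each sequence `m` of the ground model
which tends to `0` let `J m` be the tall P-ideal of the sets `e` such that the sum of the `m k`,
`k ∈ e`, is finite. If `U` is disjoint from some `J m`, then `U` belongs to the nowhere dense P-set
which corresponds to `J m`. Otherwise choose `e m ∈ U ∩ J m` for each `m`. Since there are only
continuum many sequences `m` in the ground model, there is a set `Z ⊆ I` of size at most continuum
such that all `e m` depend on the random reals with index in `Z` only. Consider the ideal which is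
generated by the random sets `w` which depend on the other random reals only and for which the
probability of `k ∈ w` tends to `0`. It is a tall P-ideal: for each infinite set `b` there is a
random real which is independent of `b` and has an index outside `Z`, and from it one can define
a set `w` of this kind for which `b ∩ w` is infinite. By the Borel-Cantelli lemma, `w ∩ e m` is
finite, where `m k` is the probability of `k ∈ w`. So `U` is disjoint from this ideal.
-/

set_option autoImplicit false

namespace Pool.Agent.Results.MP_deb3c6_lc.RandomCovered

open Cardinal Pool.Agent.TH773.PSet

theorem result :
    (∀ I : Type, 𝔠 < #I → Nonempty (Random I) ∧ ∀ p : Random I, p ∈ Covered (Random I)) ∧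
      ∀ p : Unit, p ∈ Covered Unit ↔ OmegaStarCovered := by
  refine ⟨fun I hI => ⟨⟨⟨Set.univ, MeasurableSet.univ, ?_⟩⟩, covered_random hI⟩, covered_ground⟩
  rw [MeasureTheory.measure_univ]
  exact one_ne_zero

end Pool.Agent.Results.MP_deb3c6_lc.RandomCovered
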